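import Pool.Agent.P8H73.RP.Stm
import Pool.Agent.H376R2.TT.Selwq
import Pool.Agent.H510R2.Div

/-!
Package SEL of project RP: the majorant of Selberg.
-/

set_option autoImplicit false

namespace Pool.Agent.P8H73.RP

open Finset Pool.Agent.H376R2.MR Pool.Agent.H376R2.TT
open scoped ArithmeticFunction.Moebius

/-- the weights of the starting file, with the vanishing at the numbers which are not squarefree -/
theorem wts (q : ℕ) (hq : 1 ≤ q) (D : ℕ) (hD : 2 ≤ D) : ∃ l : ℕ → ℝ, l 1 = 1 ∧ (∀ d, |l d| ≤ 1) ∧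
    (∀ d, D < d → l d = 0) ∧ (∀ d, ¬ d.Coprime q → l d = 0) ∧ (∀ d, ¬ Squarefree d → l d = 0) ∧
    ∑ d ∈ Icc 1 D, ∑ e ∈ Icc 1 D, l d * l e / (Nat.lcm d e : ℝ) ≤
      ((q : ℝ) / Nat.totient q) / Real.log D := by
  have hD1 : 1 ≤ D := by omega
  have hG := selwq_G_pos q hD1
  refine ⟨selwq_l q D, ?_, ?_, ?_, ?_, ?_, ?_⟩
  · unfold selwq_l
    have : (Icc 1 D).filter (fun m => 1 ∣ m) = Icc 1 D :=
      Finset.filter_true_of_mem (fun m _ => one_dvd m)
    rw [this]
    show ((1 : ℕ) : ℝ) * ((μ 1 : ℤ) : ℝ) * (selwq_G q D)⁻¹ * selwq_G q D = 1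
    rw [ArithmeticFunction.moebius_apply_one]
    push_cast
    field_simp
  · intro d
    by_cases hs : Squarefree d
    · by_cases hdq : d.Coprime q
      · have h1 := selwq_key q D d hs hdq
        have hnn : 0 ≤ ∑ m ∈ (Icc 1 D).filter (fun m => d ∣ m), selwq_g q m :=
          Finset.sum_nonneg fun m _ => selwq_g_nonneg q m
        have h2 : |((μ d : ℤ) : ℝ)| = 1 := by
          have := ArithmeticFunction.moebius_sq_eq_one_of_squarefree hs
          have h3 : ((μ d : ℤ) : ℝ) ^ 2 = 1 := by exact_mod_cast this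
          rw [← sq_abs] at h3
          nlinarith [abs_nonneg ((μ d : ℤ) : ℝ)]
        unfold selwq_l
        rw [abs_mul, abs_mul, abs_mul, h2, abs_of_nonneg (Nat.cast_nonneg d), mul_one,
          abs_of_pos (inv_pos.2 hG), abs_of_nonneg hnn]
        calc (d : ℝ) * (selwq_G q D)⁻¹ * ∑ m ∈ (Icc 1 D).filter (fun m => d ∣ m), selwq_g q m =
            (selwq_G q D)⁻¹ *
              ((d : ℝ) * ∑ m ∈ (Icc 1 D).filter (fun m => d ∣ m), selwq_g q m) := by ring
          _ ≤ (selwq_G q D)⁻¹ * selwq_G q D := mul_le_mul_of_nonneg_left h1 (inv_pos.2 hG).le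
          _ = 1 := inv_mul_cancel₀ hG.ne'
      · rw [selwq_l_zero q D d hdq]
        simp
    · unfold selwq_l
      rw [ArithmeticFunction.moebius_eq_zero_of_not_squarefree hs]
      simp
  · intro d hd
    unfold selwq_l
    have : (Icc 1 D).filter (fun m => d ∣ m) = ∅ := by
      apply Finset.filter_false_of_mem
      intro m hm hdm
      rw [Finset.mem_Icc] at hm
      have := Nat.le_of_dvd (by omega) hdm
      omega
    rw [this, Finset.sum_empty, mul_zero]
  · exact fun d hd => selwq_l_zero q D d hd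
  · intro d hs
    unfold selwq_l
    rw [ArithmeticFunction.moebius_eq_zero_of_not_squarefree hs]
    simp
  · rw [selwq_form q D hD1]
    have hlog : 0 < Real.log D := Real.log_pos (by exact_mod_cast (by omega : 1 < D))
    have h1 := selwq_G_ge q D hq hD1
    have h2 : (selwq_G q D)⁻¹ = 1 / selwq_G q D := (one_div _).symm
    rw [h2, div_le_div_iff₀ hG hlog, one_mul]
    exact h1

theorem sel : S_SEL := by
  intro ε hε
  obtain ⟨C, hC0, hC⟩ := Pool.Agent.H510R2.divisor_bound (ε / 4) (by positivity)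
  refine ⟨C ^ 2, by positivity, fun k z hk hz => ?_⟩
  obtain ⟨l, hl1, hlb, hlD, hlk, hls, hlf⟩ := wts k hk z hz
  have hz0 : (0 : ℝ) < z := by positivity
  set P : Finset ℕ := (Icc 1 z).filter (fun p => p.Prime ∧ ¬ p ∣ k) with hP
  set lam : ℕ → ℝ := fun d => ∑ a ∈ Icc 1 z, ∑ b ∈ Icc 1 z, if Nat.lcm a b = d then l a * l b else 0
    with hlam
  -- support
  have hsup : ∀ d, lam d ≠ 0 → ∃ a ∈ Icc 1 z, ∃ b ∈ Icc 1 z, Nat.lcm a b = d ∧ l a ≠ 0 ∧ l b ≠ 0 := by
    intro d hd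
    obtain ⟨a, ha, ha'⟩ := Finset.exists_ne_zero_of_sum_ne_zero hd
    obtain ⟨b, hb, hb'⟩ := Finset.exists_ne_zero_of_sum_ne_zero ha'
    refine ⟨a, ha, b, hb, ?_⟩
    by_cases h : Nat.lcm a b = d
    · rw [if_pos h] at hb'
      exact ⟨h, left_ne_zero_of_mul hb', right_ne_zero_of_mul hb'⟩
    · rw [if_neg h] at hb'
      exact absurd rfl hb'
  have hdvd : ∀ a ∈ Icc 1 z, l a ≠ 0 → a ∣ ∏ p ∈ P, p := by
    intro a ha h
    have hs : Squarefree a := by
      by_contra hn
      exact h (hls a hn)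
    have hc : a.Coprime k := by
      by_contra hn
      exact h (hlk a hn)
    rw [← Nat.prod_primeFactors_of_squarefree hs]
    apply Finset.prod_dvd_prod_of_subset
    intro p hp
    rw [hP, mem_filter, mem_Icc]
    have hpp := Nat.prime_of_mem_primeFactors hp
    have hpa := Nat.dvd_of_mem_primeFactors hp
    rw [mem_Icc] at ha
    refine ⟨⟨hpp.one_lt.le, (Nat.le_of_dvd (by omega) hpa).trans ha.2⟩, hpp, fun hpk => ?_⟩
    exact hpp.one_lt.ne' (Nat.dvd_one.1 (hc.gcd_eq_one ▸ Nat.dvd_gcd hpa hpk))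
  -- interchange of the sums
  have hswap : ∀ F : ℕ → ℝ, ∑ d ∈ Icc 1 (z ^ 2), lam d * F d =
      ∑ a ∈ Icc 1 z, ∑ b ∈ Icc 1 z, l a * l b * F (Nat.lcm a b) := by
    intro F
    simp only [hlam, Finset.sum_mul]
    rw [Finset.sum_comm]
    refine Finset.sum_congr rfl fun a ha => ?_
    rw [Finset.sum_comm]
    refine Finset.sum_congr rfl fun b hb => ?_
    rw [mem_Icc] at ha hb
    have hmem : Nat.lcm a b ∈ Icc 1 (z ^ 2) := by
      rw [mem_Icc]
      refine ⟨Nat.lcm_pos (by omega) (by omega), ?_⟩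
      calc Nat.lcm a b ≤ a * b := Nat.le_of_dvd (Nat.mul_pos (by omega) (by omega)) (Nat.lcm_dvd_mul a b)
        _ ≤ z * z := Nat.mul_le_mul ha.2 hb.2
        _ = z ^ 2 := (pow_two z).symm
    rw [Finset.sum_eq_single_of_mem _ hmem]
    · rw [if_pos rfl]
    · intro d _ hd
      rw [if_neg (fun h => hd h.symm), zero_mul]
  have hsq : ∀ n : ℤ, ∑ d ∈ Icc 1 (z ^ 2), lam d * (if (d : ℤ) ∣ n then (1 : ℝ) else 0) =
      (∑ a ∈ Icc 1 z, l a * (if (a : ℤ) ∣ n then (1 : ℝ) else 0)) ^ 2 := by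
    intro n
    rw [hswap, pow_two, Finset.sum_mul_sum]
    refine Finset.sum_congr rfl fun a _ => Finset.sum_congr rfl fun b _ => ?_
    have hiff : ((Nat.lcm a b : ℕ) : ℤ) ∣ n ↔ (a : ℤ) ∣ n ∧ (b : ℤ) ∣ n := by
      rw [Int.natCast_dvd, Int.natCast_dvd, Int.natCast_dvd]
      exact Nat.lcm_dvd_iff
    by_cases h1 : (a : ℤ) ∣ n
    · by_cases h2 : (b : ℤ) ∣ n
      · rw [if_pos (hiff.2 ⟨h1, h2⟩), if_pos h1, if_pos h2]
        ring
      · rw [if_neg (fun h => h2 (hiff.1 h).2), if_neg h2]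
        ring
    · rw [if_neg (fun h => h1 (hiff.1 h).1), if_neg h1]
      ring
  refine ⟨P, lam, ?_, ?_, ?_, ?_, ?_, ?_, ?_⟩
  · intro p hp
    rw [hP, mem_filter] at hp
    exact hp.2
  · intro d
    by_cases hd : lam d = 0
    · rw [hd, abs_zero]
      positivity
    · obtain ⟨a₀, ha₀, b₀, hb₀, hab, _, _⟩ := hsup d hd
      rw [mem_Icc] at ha₀ hb₀
      have hd1 : 1 ≤ d := by
        rw [← hab]
        exact Nat.lcm_pos (by omega) (by omega)
      have hdz : d ≤ z ^ 2 := by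
        rw [← hab]
        calc Nat.lcm a₀ b₀ ≤ a₀ * b₀ :=
              Nat.le_of_dvd (Nat.mul_pos (by omega) (by omega)) (Nat.lcm_dvd_mul a₀ b₀)
          _ ≤ z * z := Nat.mul_le_mul ha₀.2 hb₀.2
          _ = z ^ 2 := (pow_two z).symm
      have hb1 : |lam d| ≤ ∑ a ∈ Icc 1 z, ∑ b ∈ Icc 1 z,
          if a ∈ d.divisors ∧ b ∈ d.divisors then (1 : ℝ) else 0 := by
        refine (Finset.abs_sum_le_sum_abs _ _).trans (Finset.sum_le_sum fun a _ => ?_)
        refine (Finset.abs_sum_le_sum_abs _ _).trans (Finset.sum_le_sum fun b _ => ?_)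
        by_cases h : Nat.lcm a b = d
        · rw [if_pos h, if_pos, abs_mul]
          · calc |l a| * |l b| ≤ 1 * 1 := mul_le_mul (hlb a) (hlb b) (abs_nonneg _) zero_le_one
              _ = 1 := one_mul 1
          · rw [Nat.mem_divisors, Nat.mem_divisors, ← h]
            exact ⟨⟨Nat.dvd_lcm_left a b, by rw [h]; omega⟩, ⟨Nat.dvd_lcm_right a b, by rw [h]; omega⟩⟩
        · rw [if_neg h, abs_zero]
          split_ifs <;> norm_num
      have hb2 : (∑ a ∈ Icc 1 z, ∑ b ∈ Icc 1 z,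
          if a ∈ d.divisors ∧ b ∈ d.divisors then (1 : ℝ) else 0) ≤ (d.divisors.card : ℝ) ^ 2 := by
        have e1 : (∑ a ∈ Icc 1 z, ∑ b ∈ Icc 1 z,
            if a ∈ d.divisors ∧ b ∈ d.divisors then (1 : ℝ) else 0) =
            (∑ a ∈ Icc 1 z, if a ∈ d.divisors then (1 : ℝ) else 0) ^ 2 := by
          rw [pow_two, Finset.sum_mul_sum]
          refine Finset.sum_congr rfl fun a _ => Finset.sum_congr rfl fun b _ => ?_
          by_cases h1 : a ∈ d.divisors <;> by_cases h2 : b ∈ d.divisors <;> simp [h1, h2]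
        rw [e1]
        have e2 : (∑ a ∈ Icc 1 z, if a ∈ d.divisors then (1 : ℝ) else 0) ≤ (d.divisors.card : ℝ) := by
          rw [← Finset.sum_filter, Finset.sum_const, nsmul_eq_mul, mul_one]
          exact_mod_cast Finset.card_le_card (fun a ha => (mem_filter.1 ha).2)
        have e3 : (0 : ℝ) ≤ ∑ a ∈ Icc 1 z, if a ∈ d.divisors then (1 : ℝ) else 0 :=
          Finset.sum_nonneg fun _ _ => by split_ifs <;> norm_num
        exact pow_le_pow_left₀ e3 e2 2
      have hb3 : (d.divisors.card : ℝ) ^ 2 ≤ C ^ 2 * (z : ℝ) ^ ε := by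
        have h1 := hC d hd1
        have h2 : (d : ℝ) ^ (ε / 4) ≤ ((z : ℝ) ^ 2) ^ (ε / 4) := by
          apply Real.rpow_le_rpow (by positivity) (by exact_mod_cast hdz) (by positivity)
        have h3 : ((z : ℝ) ^ 2) ^ (ε / 4) = (z : ℝ) ^ (ε / 2) := by
          rw [← Real.rpow_natCast, ← Real.rpow_mul hz0.le]
          congr 1
          push_cast
          ring
        have h4 : ((z : ℝ) ^ (ε / 2)) ^ 2 = (z : ℝ) ^ ε := by
          rw [← Real.rpow_natCast, ← Real.rpow_mul hz0.le]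
          congr 1
          push_cast
          ring
        calc (d.divisors.card : ℝ) ^ 2 ≤ (C * (z : ℝ) ^ (ε / 2)) ^ 2 := by
              apply pow_le_pow_left₀ (Nat.cast_nonneg _)
              exact h1.trans (mul_le_mul_of_nonneg_left (h2.trans h3.le) hC0.le)
          _ = C ^ 2 * (z : ℝ) ^ ε := by rw [mul_pow, h4]
      exact (hb1.trans hb2).trans hb3
  · intro d hd
    obtain ⟨a, ha, b, hb, hab, ha', hb'⟩ := hsup d hd
    rw [← hab]
    exact Nat.lcm_dvd (hdvd a ha ha') (hdvd b hb hb')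
  · intro d hd
    obtain ⟨a, ha, b, hb, hab, _, _⟩ := hsup d hd
    rw [mem_Icc] at ha hb
    rw [← hab]
    refine ⟨Nat.lcm_pos (by omega) (by omega), ?_⟩
    calc Nat.lcm a b ≤ a * b := Nat.le_of_dvd (Nat.mul_pos (by omega) (by omega)) (Nat.lcm_dvd_mul a b)
      _ ≤ z * z := Nat.mul_le_mul ha.2 hb.2
      _ = z ^ 2 := (pow_two z).symm
  · intro n
    rw [hsq]
    positivity
  · intro n hn hzn
    rw [hsq]
    have h1 : ∑ a ∈ Icc 1 z, l a * (if (a : ℤ) ∣ (n : ℤ) then (1 : ℝ) else 0) = 1 := by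
      rw [Finset.sum_eq_single_of_mem 1 (by rw [mem_Icc]; omega)]
      · rw [hl1, if_pos (by simp)]
        norm_num
      · intro a ha ha1
        rw [mem_Icc] at ha
        rw [if_neg, mul_zero]
        intro hdv
        have hdv' : a ∣ n := by exact_mod_cast hdv
        rcases (Nat.dvd_prime hn).1 hdv' with h | h
        · exact ha1 h
        · omega
    rw [h1]
    norm_num
  · have h1 : ∑ d ∈ Icc 1 (z ^ 2), lam d / d = ∑ d ∈ Icc 1 (z ^ 2), lam d * (1 / (d : ℝ)) := by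
      refine Finset.sum_congr rfl fun d _ => ?_
      rw [mul_one_div]
    rw [h1, hswap]
    refine le_trans (le_of_eq ?_) hlf
    refine Finset.sum_congr rfl fun a _ => Finset.sum_congr rfl fun b _ => ?_
    rw [mul_one_div]

end Pool.Agent.P8H73.RP
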