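import Pool.Agent.P8H73.RP.Core
import Pool.Agent.P8H73.RP.Sel
import Pool.Agent.P8H52.RP.Win
import Pool.Agent.P8H75.RP.FA
import Pool.Agent.P8H75.RP.FB
import Pool.Agent.P8H76.RP.Ls
import Pool.Agent.P8H88.RP.FC

/-! Project RP: assembly. -/

set_option autoImplicit false

namespace Pool.Agent.P8H73.RP

theorem win_ok : S_WIN := Pool.Agent.P8H52.RP.win Pool.Agent.P8H76.RP.ls

theorem core_ok : S_CORE := core sel win_ok

theorem all_fa : S_FA := Pool.Agent.P8H75.RP.fa core_ok

theorem all_fb : S_FB := Pool.Agent.P8H75.RP.fb all_fa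

theorem all_fc : S_FC := Pool.Agent.P8H88.RP.fc core_ok

end Pool.Agent.P8H73.RP
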