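import Pool.Agent.P8H73.RP.Stm

/-!
Package CORE of project RP.
-/

set_option autoImplicit false

namespace Pool.Agent.P8H73.RP

open Finset

theorem core (hS : S_SEL) (hW : S_WIN) : S_CORE := by
  intro m ε hm hε
  have hm0 : (0 : ℝ) < m := by exact_mod_cast hm
  obtain ⟨C1, hC1, h1⟩ := hS (ε / (4 * m)) (by positivity)
  obtain ⟨C2, hC2, h2⟩ := hW m (ε / 4) hm (by positivity)
  refine ⟨C2 * C1 ^ (2 * m), by positivity, fun k₁ k₂ W H z l X τ hk₁ hk₂ hz hτ => ?_⟩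
  classical
  have hz0 : (0 : ℝ) < z := by positivity
  have hk : 1 ≤ k₁ * k₂ := Nat.mul_pos hk₁ hk₂
  obtain ⟨P, lam, hP, hlb, hdv, hrg, hnn, hpr, hden⟩ := h1 (k₁ * k₂) z hk hz
  set R : ℕ := ∏ p ∈ P, p with hR
  set Λ : ℝ := C1 * (z : ℝ) ^ (ε / (4 * m)) with hΛ
  have hcop : Nat.Coprime k₁ R := by
    rw [hR]
    apply Nat.Coprime.prod_right
    intro p hp
    have h := hP p hp
    refine Nat.Coprime.symm ((Nat.Prime.coprime_iff_not_dvd h.1).2 fun hd => h.2 (hd.mul_right k₂))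
  have hcop' : IsCoprime (k₁ : ℤ) (R : ℤ) := Nat.isCoprime_iff_coprime.2 hcop
  obtain ⟨a, b, hab⟩ := hcop'
  set u₀ : ℤ := -(l * a) with hu₀
  have hu : (R : ℤ) ∣ l + k₁ * u₀ := by
    refine ⟨l * b, ?_⟩
    rw [hu₀]
    linear_combination (-l) * hab
  have hdvd : ∀ d : ℕ, d ∣ R → ∀ (M j : ℕ), ((d : ℤ) ∣ l + k₁ * (X + M) + (k₁ * k₂ : ℕ) * j ↔
      (d : ℤ) ∣ (X - u₀ + M) + k₂ * j) := by
    intro d hd M j
    have e : l + k₁ * (X + M) + (k₁ * k₂ : ℕ) * j = (l + k₁ * u₀) + k₁ * ((X - u₀ + M) + k₂ * j) := by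
      push_cast
      ring
    have hd' : (d : ℤ) ∣ l + k₁ * u₀ := dvd_trans (by exact_mod_cast hd) hu
    rw [e, dvd_add_right hd']
    have hc : IsCoprime (d : ℤ) (k₁ : ℤ) :=
      Nat.isCoprime_iff_coprime.2 (Nat.Coprime.coprime_dvd_left hd hcop.symm)
    exact ⟨fun h => hc.dvd_of_dvd_mul_left h, fun h => h.mul_left _⟩
  -- the majorant
  have hmaj : ∀ M : ℕ, (pc (l + k₁ * (X + M)) (k₁ * k₂) H z : ℝ) ≤
      cen lam (z ^ 2) k₂ H (X - u₀ + M) + H * (((k₁ * k₂ : ℕ) : ℝ) / Nat.totient (k₁ * k₂) / Real.log z) := by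
    intro M
    have s1 : (pc (l + k₁ * (X + M)) (k₁ * k₂) H z : ℝ) ≤
        ∑ j ∈ range H, ∑ d ∈ Icc 1 (z ^ 2), lam d *
          (if (d : ℤ) ∣ l + k₁ * (X + M) + (k₁ * k₂ : ℕ) * j then (1 : ℝ) else 0) := by
      unfold pc
      rw [Finset.card_filter]
      push_cast
      refine Finset.sum_le_sum fun j _ => ?_
      by_cases hj : (z : ℤ) < l + k₁ * (X + M) + (k₁ * k₂ : ℕ) * j ∧
          (l + k₁ * (X + M) + (k₁ * k₂ : ℕ) * j).toNat.Prime
      · have h3 : ((l + k₁ * (X + M) + (k₁ * k₂ : ℕ) * j).toNat : ℤ) =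
            l + k₁ * (X + M) + (k₁ * k₂ : ℕ) * j := Int.toNat_of_nonneg (by have := hj.1; omega)
        have h4 := hpr _ hj.2 (by have := hj.1; omega)
        rw [h3] at h4
        have h5 : (z : ℤ) < l + k₁ * (X + M) + k₁ * k₂ * j ∧
          (l + k₁ * (X + M) + k₁ * k₂ * j).toNat.Prime := by
          have := hj
          push_cast at this
          exact this
        rw [if_pos h5]
        push_cast at h4
        exact h4.symm.le
      · have h5 : ¬ ((z : ℤ) < l + k₁ * (X + M) + k₁ * k₂ * j ∧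
          (l + k₁ * (X + M) + k₁ * k₂ * j).toNat.Prime) := by
          have := hj
          push_cast at this
          exact this
        rw [if_neg h5]
        have := hnn (l + k₁ * (X + M) + (k₁ * k₂ : ℕ) * j)
        push_cast at this
        exact this
    have s2 : ∑ j ∈ range H, ∑ d ∈ Icc 1 (z ^ 2), lam d *
          (if (d : ℤ) ∣ l + k₁ * (X + M) + (k₁ * k₂ : ℕ) * j then (1 : ℝ) else 0) =
        cen lam (z ^ 2) k₂ H (X - u₀ + M) + H * ∑ d ∈ Icc 1 (z ^ 2), lam d / d := by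
      unfold cen
      have e1 : (H : ℝ) * ∑ d ∈ Icc 1 (z ^ 2), lam d / d =
          ∑ j ∈ range H, ∑ d ∈ Icc 1 (z ^ 2), lam d / d := by
        rw [Finset.sum_const, card_range, nsmul_eq_mul]
      rw [e1, ← Finset.sum_add_distrib]
      refine Finset.sum_congr rfl fun j _ => ?_
      rw [← Finset.sum_add_distrib]
      refine Finset.sum_congr rfl fun d _ => ?_
      by_cases hd0 : lam d = 0
      · rw [hd0]
        simp
      · have hiff := hdvd d (hdv d hd0) M j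
        by_cases hd1 : (d : ℤ) ∣ (X - u₀ + M) + k₂ * j
        · rw [if_pos (hiff.2 hd1), if_pos hd1]
          ring
        · rw [if_neg (fun h => hd1 (hiff.1 h)), if_neg hd1]
          ring
    calc (pc (l + k₁ * (X + M)) (k₁ * k₂) H z : ℝ) ≤ _ := s1
      _ = _ := s2
      _ ≤ _ := by
          have := mul_le_mul_of_nonneg_left hden (Nat.cast_nonneg (α := ℝ) H)
          linarith
  -- Markov
  have hwin := h2 P (z ^ 2) k₂ H lam Λ (fun p hp => ⟨(hP p hp).1, fun h => (hP p hp).2 (h.mul_left k₁)⟩)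
    (Nat.one_le_pow _ _ (by omega)) (by positivity) hlb hdv (X - u₀) W
  set F := (range W).filter (fun M : ℕ => (((k₁ * k₂ : ℕ) : ℝ) / Nat.totient (k₁ * k₂)) * (H / Real.log z) + τ ≤
      (pc (l + k₁ * (X + M)) (k₁ * k₂) H z : ℝ)) with hF
  have h3 : (F.card : ℝ) * τ ^ (2 * m) ≤ ∑ M ∈ range W, cen lam (z ^ 2) k₂ H (X - u₀ + M) ^ (2 * m) := by
    calc (F.card : ℝ) * τ ^ (2 * m) = ∑ M ∈ F, τ ^ (2 * m) := by rw [Finset.sum_const, nsmul_eq_mul]
      _ ≤ ∑ M ∈ F, cen lam (z ^ 2) k₂ H (X - u₀ + M) ^ (2 * m) := by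
          refine Finset.sum_le_sum fun M hM => ?_
          rw [hF, mem_filter] at hM
          have := hmaj M
          have h4 : H * (((k₁ * k₂ : ℕ) : ℝ) / Nat.totient (k₁ * k₂) / Real.log z) =
            (((k₁ * k₂ : ℕ) : ℝ) / Nat.totient (k₁ * k₂)) * (H / Real.log z) := by ring
          rw [h4] at this
          exact pow_le_pow_left₀ hτ.le (by linarith [hM.2]) _
      _ ≤ _ := by
          refine Finset.sum_le_sum_of_subset_of_nonneg (Finset.filter_subset _ _) fun M _ _ => ?_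
          rw [pow_mul]
          positivity
  rw [le_div_iff₀ (by positivity)]
  refine (h3.trans hwin).trans (le_of_eq ?_)
  have e1 : Λ ^ (2 * m) = C1 ^ (2 * m) * (z : ℝ) ^ (ε / 2) := by
    rw [hΛ, mul_pow, ← Real.rpow_natCast ((z : ℝ) ^ (ε / (4 * m))), ← Real.rpow_mul hz0.le]
    congr 2
    push_cast
    field_simp
    ring
  have e2 : ((z ^ 2 : ℕ) : ℝ) ^ (ε / 4) = (z : ℝ) ^ (ε / 2) := by
    push_cast
    rw [← Real.rpow_natCast, ← Real.rpow_mul hz0.le]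
    congr 1
    push_cast
    ring
  have e3 : ((z ^ 2 : ℕ) : ℝ) ^ (2 * m) = (z : ℝ) ^ (4 * m) := by
    push_cast
    rw [← pow_mul]
    congr 1
    ring
  have e4 : (z : ℝ) ^ ε = (z : ℝ) ^ (ε / 2) * (z : ℝ) ^ (ε / 2) := by
    rw [← Real.rpow_add hz0]
    congr 1
    ring
  rw [e1, e2, e3, e4]
  ring

end Pool.Agent.P8H73.RP
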