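import Mathlib

/-!
# Rare progressions with many primes: statements of the packages (project RP, hard row MP_26a8c3_nt)

Theorem of the project (helper73). For every `m ≥ 1` and `ε > 0` there is a `C` such that for ALL moduli `k = k₁ k₂`, all
`l₁` prime to `k₁`, all real `0 < y ≤ x` with `H = y / k > 1`, and all real `s ≥ 1`: at most
`C (y / k₁) ^ ε (k₂ / H ^ m + H ^ (m (2 s - 1) - 1))` of the `k₂` classes modulo `k` above `l₁` modulo `k₁` have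
`N(x, y; k, l) ≥ (2 / s + ε) y / (φ(k) log (y / k))`.

Method: the majorant of Selberg, its moments of order `2 m` over a full period (as Montgomery and Vaughan for the
reduced residues), and the large sieve for the passage to windows of arbitrary position.
-/

set_option autoImplicit false

namespace Pool.Agent.P8H73.RP

open Finset

/-- `f` has the period `r` -/
def Per (r : ℕ) (f : ℤ → ℝ) : Prop := ∀ u : ℤ, f (u + r) = f u

/-- the mean of `f` over `0, …, R - 1` -/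
noncomputable def mean (R : ℕ) (f : ℤ → ℝ) : ℝ := (∑ u ∈ range R, f (u : ℤ)) / R

/-- Ramanujan's sum `c_q(u)` for squarefree `q` -/
noncomputable def rs (q : ℕ) (u : ℤ) : ℝ :=
  ∏ p ∈ q.primeFactors, ((if (p : ℤ) ∣ u then (p : ℝ) else 0) - 1)

/-- the sum of Ramanujan's sums over a progression with `H` terms and difference `k` -/
noncomputable def rsum (q k H : ℕ) (u : ℤ) : ℝ := ∑ j ∈ range H, rs q (u + k * j)

/-- the centred sum of the weights `lam d` over the divisors `d ≤ D` of the terms of a progression -/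
noncomputable def cen (lam : ℕ → ℝ) (D k H : ℕ) (u : ℤ) : ℝ :=
  ∑ j ∈ range H, ∑ d ∈ Icc 1 D, lam d * ((if (d : ℤ) ∣ u + k * j then (1 : ℝ) else 0) - 1 / d)

/-- Package LS (150 lines). From the full period to windows: if `f = ∑ g i` and the `g i` have periods `r i ≤ N`
(divisors of `R`), then the sum of `f ^ 2` over `W` consecutive integers is at most `C (W + N ^ 2)` times the mean of `f ^ 2`.

Proof. `f` has the period `R`; let `F(a) = mean of f(u) e(- a u / R)`, `a < R`, so `f(u) = ∑ F(a) e(a u / R)` and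
`∑ |F(a)| ^ 2 = mean f ^ 2`. If `F(a) ≠ 0` then `a / R` has a reduced denominator `≤ N` (for a function of the period `r`, `r ∣ R`,
the coefficient vanishes unless `r a / R` is an integer: shift `u` by `r`). Distinct fractions with denominators `≤ N` are separated
by `1 / N ^ 2` modulo one; apply the large sieve `ls_general` or its dual form `ls_dual` (starting file
`Pool.Agent.Helper112.LS`, also `ls_sep_of_int`, `additive_large_sieve`): with `b n = f(X + n)` on the window,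
`∑ b n ^ 2 = ∑ F(a) e(a X / R) ∑ b n e(a n / R) ≤ (∑ |F(a)| ^ 2) ^ (1/2) (6 (W + N ^ 2) ∑ b n ^ 2) ^ (1/2)`. -/
def S_LS : Prop := ∃ C : ℝ, 0 < C ∧ ∀ (ι : Type) (s : Finset ι) (R N : ℕ) (r : ι → ℕ) (g : ι → ℤ → ℝ), 1 ≤ R → 1 ≤ N →
  (∀ i ∈ s, 1 ≤ r i ∧ r i ≤ N ∧ r i ∣ R ∧ Per (r i) (g i)) → ∀ (X : ℤ) (W : ℕ),
  ∑ M ∈ range W, (∑ i ∈ s, g i (X + M)) ^ 2 ≤ C * (W + (N : ℝ) ^ 2) * mean R (fun u => (∑ i ∈ s, g i u) ^ 2)

/-- Package HOL (120 lines). Functions `f i ≥ 0` of period `q i ∣ R = ∏ P`; every prime of `P` divides no `q i` or at least two.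

Proof. Induction on `P` (for all `q`, `f`). For a prime `p ∉ P'`, `P = P' ∪ {p}`, `R' = ∏ P'`: every `u < p R'` is `b + R' a`,
`b < R'`, `a < p`. If `p ∤ q i`, then `f i (b + R' a) = f i b`. If `p ∣ q i`, put `g i b = ((1/p) ∑_{a < p} f i (b + R' a) ^ 2) ^ (1/2)`, which
has the period `q i / p` (for `q' ∣ R'` the residues of `b + R' a` modulo `p q'` are all those congruent to `b` modulo `q'`), and the
same mean square as `f i`. For fixed `b` let `T` be the set of the `i` with `p ∣ q i`, `|T| ≥ 2` (or `T` empty, trivial):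
`∑_a ∏_{T} f i ≤ ∏_T (∑_a (f i) ^ 2) ^ (1/2)` (Cauchy-Schwarz, all other factors are at most their `ℓ²` norm), which is
`p ^ (|T|/2) ∏ g i b`; divide by `p`; the factor `p ^ (|T| / 2) / p` is the one of `∏ (q i) ^ (1/2) / lcm`. -/
def S_HOL : Prop := ∀ (P : Finset ℕ), (∀ p ∈ P, p.Prime) → ∀ (t : ℕ) (q : Fin t → ℕ) (f : Fin t → ℤ → ℝ),
  (∀ i, q i ∣ ∏ p ∈ P, p) → (∀ i, Per (q i) (f i)) → (∀ i u, 0 ≤ f i u) →
  (∀ p ∈ P, ∀ i, p ∣ q i → ∃ j, j ≠ i ∧ p ∣ q j) →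
  mean (∏ p ∈ P, p) (fun u => ∏ i, f i u) ≤
    (∏ i, Real.sqrt (q i * mean (∏ p ∈ P, p) (fun u => f i u ^ 2))) / ((univ.lcm q : ℕ) : ℝ)

/-- Package VAN (60 lines). A prime which divides exactly one `q i` makes the mean of the product vanish.

Proof. `R = p R'`, `u = b + R' a`. The factors with `p ∤ q j` depend on `b` only; in `rs (q i) (b + R' a + k j)` only the factor of `p` depends
on `a`, and `∑_{a < p} ((if p ∣ b + R' a + k j then p else 0) - 1) = 0`, as `R'` is prime to `p`. -/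
def S_VAN : Prop := ∀ (P : Finset ℕ) (k H : ℕ), (∀ p ∈ P, p.Prime) → ∀ (t : ℕ) (q : Fin t → ℕ),
  (∀ i, q i ∣ ∏ p ∈ P, p) → ∀ p ∈ P, ∀ i, p ∣ q i → (∀ j, j ≠ i → ¬ p ∣ q j) →
  mean (∏ p ∈ P, p) (fun u => ∏ i, rsum (q i) k H u) = 0

/-- Package L2 (120 lines). The mean square of `rsum`.

Proof. `mean (rs q (u + a) rs q (u + b)) = rs q (a - b)` for `q ∣ R` (multiplicativity: as in VAN, one prime after the other;
`mean_p ((p 1_{p ∣ u + a} - 1) (p 1_{p ∣ u + b} - 1)) = p 1_{p ∣ a - b} - 1`). Hence the mean is `∑_{j, j'} rs q (k (j - j'))`, and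
`rs q (k h) = rs q h`, as `k` is prime to `q`. For squarefree `q`, `rs q h = ∑_{e ∣ q} μ (q / e) e 1_{e ∣ h}`; the number of `j' < H` with
`e ∣ j - j'` is `H / e + O(1)`, error at most `1`, and `∑_{e ∣ q} μ (q / e) = 0` for `q > 1`: so `∑_{j'} rs q (j - j') ≤ ∑_{e ∣ q} e ≤ q τ(q)`. -/
def S_L2 : Prop := ∀ (P : Finset ℕ) (k H : ℕ), (∀ p ∈ P, p.Prime ∧ ¬ p ∣ k) → ∀ q : ℕ, q ∣ ∏ p ∈ P, p → 1 < q →
  mean (∏ p ∈ P, p) (fun u => rsum q k H u ^ 2) ≤ H * q * (q.divisors.card : ℝ)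

/-- Package SUM (80 lines). Proof. Induction on `t`: `lcm (L, q) = L q / gcd (L, q)`, `gcd (L, q) ≤ ∑_{g ∣ L, g ∣ q} g`, so
`∑_{q ≤ D} 1 / lcm (L, q) ≤ τ(L) (1 + log D) / L`, and `τ(L) ≤ C L ^ ε ≤ C D ^ (t ε)` (the divisor bound is in many library files). -/
def S_SUM : Prop := ∀ (t : ℕ) (ε : ℝ), 0 < ε → ∃ C : ℝ, 0 < C ∧ ∀ D : ℕ, 1 ≤ D →
  ∑ x ∈ Fintype.piFinset (fun _ : Fin t => Icc 1 D), 1 / ((univ.lcm x : ℕ) : ℝ) ≤ C * (D : ℝ) ^ ε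

/-- Package MOM (150 lines, from HOL, VAN, L2, SUM). The moments over a full period.

Proof. For squarefree `d`: `1_{d ∣ u} - 1 / d = (1 / d) ∑_{q ∣ d, q > 1} rs q u` (`Finset.prod_one_add`), so
`cen lam D k H u = ∑_{q ∈ A} w q * rsum q k H u`, `A` the divisors `q > 1` of `R = ∏ P` with `q ≤ D` and `w q = ∑_{d ≤ D, q ∣ d} lam d / d`,
`|w q| ≤ Λ (1 + log D) / q`. Expand the power `2 m` over `Fintype.piFinset (fun _ : Fin (2 m) => A)`; the tuples with a prime dividing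
exactly one member vanish by VAN, for the others HOL (with `|rsum|`) and L2 give at most
`∏ |w q_i| (q_i H q_i τ(q_i)) ^ (1/2) / lcm ≤ (Λ (1 + log D)) ^ (2 m) H ^ m (max τ) ^ m / lcm`; then SUM and the divisor bound. -/
def S_MOM : Prop := ∀ (m : ℕ) (ε : ℝ), 1 ≤ m → 0 < ε → ∃ C : ℝ, 0 < C ∧
  ∀ (P : Finset ℕ) (D k H : ℕ) (lam : ℕ → ℝ) (Λ : ℝ), (∀ p ∈ P, p.Prime ∧ ¬ p ∣ k) → 1 ≤ D → 0 ≤ Λ →
  (∀ d, |lam d| ≤ Λ) → (∀ d, lam d ≠ 0 → d ∣ ∏ p ∈ P, p) →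
  mean (∏ p ∈ P, p) (fun u => cen lam D k H u ^ (2 * m)) ≤ C * Λ ^ (2 * m) * (H : ℝ) ^ m * (D : ℝ) ^ ε

/-- Package WIN (80 lines, from LS and MOM). The moments over windows.

Proof. `cen ^ m` is a sum over `m`-tuples of `d`s of functions of the period `lcm ≤ D ^ m`, a divisor of `∏ P` (the tuples with
`lam d = 0` for some member are left out); LS with `N = D ^ m`. -/
def S_WIN : Prop := ∀ (m : ℕ) (ε : ℝ), 1 ≤ m → 0 < ε → ∃ C : ℝ, 0 < C ∧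
  ∀ (P : Finset ℕ) (D k H : ℕ) (lam : ℕ → ℝ) (Λ : ℝ), (∀ p ∈ P, p.Prime ∧ ¬ p ∣ k) → 1 ≤ D → 0 ≤ Λ →
  (∀ d, |lam d| ≤ Λ) → (∀ d, lam d ≠ 0 → d ∣ ∏ p ∈ P, p) → ∀ (X : ℤ) (W : ℕ),
  ∑ M ∈ range W, cen lam D k H (X + M) ^ (2 * m) ≤
    C * (W + (D : ℝ) ^ (2 * m)) * (Λ ^ (2 * m) * (H : ℝ) ^ m * (D : ℝ) ^ ε)

open Classical in
/-- the number of the `j < H` such that `n + k j` is a prime larger than `z` -/
noncomputable def pc (n : ℤ) (k H z : ℕ) : ℕ :=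
  ((range H).filter (fun j : ℕ => (z : ℤ) < n + k * j ∧ (n + k * j).toNat.Prime)).card

/-- Package SEL (120 lines). Selberg's majorant, in the form used here: real weights `lam d` on squarefree `d ≤ z ^ 2` prime to `k₁ k₂`,
with `∑_{d ∣ n} lam d ≥ 0` for all integers `n`, `= 1` for the primes `n > z`, and the density at most `k / φ(k) / log z`.
Proof. `lam d = ∑_{lcm (d₁, d₂) = d} ρ d₁ ρ d₂` with `ρ = selwq_l k z` of the starting file `Pool.Agent.H376R2.TT.Selwq`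
(theorem `sel_weights_q`; the weights vanish at the `d` which are not squarefree, see its proof), `∑_{d ∣ n} lam d = (∑_{d ∣ n} ρ d) ^ 2`,
`|lam d| ≤ τ(d) ^ 2`. -/
def S_SEL : Prop := ∀ ε : ℝ, 0 < ε → ∃ C : ℝ, 0 < C ∧ ∀ (k z : ℕ), 1 ≤ k → 2 ≤ z →
  ∃ (P : Finset ℕ) (lam : ℕ → ℝ), (∀ p ∈ P, p.Prime ∧ ¬ p ∣ k) ∧ (∀ d, |lam d| ≤ C * (z : ℝ) ^ ε) ∧
    (∀ d, lam d ≠ 0 → d ∣ ∏ p ∈ P, p) ∧ (∀ d, lam d ≠ 0 → 1 ≤ d ∧ d ≤ z ^ 2) ∧
    (∀ n : ℤ, 0 ≤ ∑ d ∈ Icc 1 (z ^ 2), lam d * (if (d : ℤ) ∣ n then (1 : ℝ) else 0)) ∧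
    (∀ n : ℕ, n.Prime → z < n → ∑ d ∈ Icc 1 (z ^ 2), lam d * (if (d : ℤ) ∣ (n : ℤ) then (1 : ℝ) else 0) = 1) ∧
    ∑ d ∈ Icc 1 (z ^ 2), lam d / d ≤ ((k : ℝ) / Nat.totient k) / Real.log z

/-- Package CORE (100 lines, from SEL and WIN).

Proof. With `R = ∏ P` prime to `k₁` choose an integer `u₀` with `l + k₁ u₀ ≡ 0` modulo `R`; for `d ∣ R`:
`d ∣ l + k₁ (X + M + k₂ j)` iff `d ∣ (X - u₀ + M) + k₂ j`. Hence `pc (l + k₁ (X + M)) (k₁ k₂) H z ≤ ∑_j ∑_{d ∣ …} lam d =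
H ∑ lam d / d + cen lam (z ^ 2) k₂ H (X - u₀ + M)`; Markov's inequality for the power `2 m`. -/
def S_CORE : Prop := ∀ (m : ℕ) (ε : ℝ), 1 ≤ m → 0 < ε → ∃ C : ℝ, 0 < C ∧
  ∀ (k₁ k₂ W H z : ℕ) (l X : ℤ) (τ : ℝ), 1 ≤ k₁ → 1 ≤ k₂ → 2 ≤ z → 0 < τ →
  (((range W).filter (fun M : ℕ => (((k₁ * k₂ : ℕ) : ℝ) / Nat.totient (k₁ * k₂)) * (H / Real.log z) + τ ≤
      (pc (l + k₁ * (X + M)) (k₁ * k₂) H z : ℝ))).card : ℝ) ≤
    C * (W + (z : ℝ) ^ (4 * m)) * ((H : ℝ) ^ m * (z : ℝ) ^ ε) / τ ^ (2 * m)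

/-- `N(x, y; k, l)`: the number of the primes `p ≡ l` modulo `k` with `x - y < p ≤ x` -/
noncomputable def cnt (x y : ℝ) (k : ℕ) (l : ℤ) : ℕ :=
  {p : ℕ | p.Prime ∧ x - y < (p : ℝ) ∧ (p : ℝ) ≤ x ∧ (p : ℤ) ≡ l [ZMOD (k : ℤ)]}.ncard

open Classical in
/-- Package FA (250 lines, from CORE). Classes.

Proof. Put `k = k₁ k₂`, `H = y / k`, `Y = y / k₁`. For bounded `H` the claim is trivial (there are `k₂` classes), so let `H ≥ H₀(m, ε)`.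
Put `z = ⌊H ^ (s / 2)⌋₊` (`log z ≥ (s / 2) log H - log 2`), `J = ⌊η H⌋₊`, `H' = ⌈H⌉₊ + J + 1`. Let `l` be a bad class, `n` the least integer
`> x - y` in the class; for `j ≤ J` all elements of the class in `(x - y, x]` are among the `H'` terms from `n - j k`; so
`cnt x y k l ≤ pc (n - j k) k H' z + ` (primes `≤ z` of the class). If `s < 3 / 2` the last number is at most `z / k + 1 ≤ H ^ (3/4) + 1`; if
`s ≥ 3 / 2` it is zero for all classes `l` of `range k` but at most `z + 1 ≤ 2 H ^ (m (2 s - 1) - 1)` of them. So each of the other bad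
classes gives `J + 1 ≥ η H` values `M` counted in CORE, for the window of `W = k₂ (J + 1)` values of `M` and
`τ = (ε / 4) H / log H` (the numbers `n`, for the classes above `l₁`, are `l₁ + k₁ M'` with `k₂` consecutive `M'`). -/
def S_FA : Prop := ∀ (m : ℕ) (ε : ℝ), 1 ≤ m → 0 < ε → ∃ C : ℝ, 0 < C ∧
  ∀ (k₁ k₂ : ℕ) (l₁ : ℤ) (x y s : ℝ), 1 ≤ k₁ → 1 ≤ k₂ → ((k₁ * k₂ : ℕ) : ℝ) < y → y ≤ x → 1 ≤ s →
  (((range (k₁ * k₂)).filter (fun l : ℕ => (l : ℤ) ≡ l₁ [ZMOD (k₁ : ℤ)] ∧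
      (2 / s + ε) * y / (Nat.totient (k₁ * k₂) * Real.log (y / (k₁ * k₂ : ℕ))) ≤
        (cnt x y (k₁ * k₂) l : ℝ))).card : ℝ) ≤
    C * (y / k₁) ^ ε * (k₂ / (y / (k₁ * k₂ : ℕ)) ^ m + (y / (k₁ * k₂ : ℕ)) ^ (m * (2 * s - 1) - 1))

open Classical in
/-- Package FB (120 lines, from FA). The choice of `m`.

Proof. `s = 2 / (2 - δ)`, `Y = y / k₁`, `H = y / (k₁ k₂) = Y / k₂ ≥ Y ^ ε`, `m = ⌊log Y / (2 s log H)⌋₊ ≤ 1 / (2 ε)` (finitely many values of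
`m`: `C` is the sum of their constants). If `m = 0`, then `k₂ = Y / H ≤ Y ^ (1 - 1 / (2 s))` and there are only `k₂` classes. If
`m ≥ 1`, then `k₂ / H ^ m = Y / H ^ (m + 1) ≤ Y ^ (1 - 1 / (2 s))` and `H ^ (m (2 s - 1) - 1) ≤ H ^ (m (2 s - 1)) ≤ Y ^ (1 - 1 / (2 s))`.
Finally `1 - 1 / (2 s) = 1 / 2 + δ / 4`. -/
def S_FB : Prop := ∀ ε : ℝ, 0 < ε → ∃ C : ℝ, 0 < C ∧
  ∀ (k₁ k₂ : ℕ) (l₁ : ℤ) (x y δ : ℝ), 1 ≤ k₁ → 1 ≤ k₂ → ((k₁ * k₂ : ℕ) : ℝ) < y → y ≤ x → 0 ≤ δ → δ < 2 →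
  (y / k₁) ^ ε ≤ y / (k₁ * k₂ : ℕ) →
  (((range (k₁ * k₂)).filter (fun l : ℕ => (l : ℤ) ≡ l₁ [ZMOD (k₁ : ℤ)] ∧
      (2 - δ + ε) * y / (Nat.totient (k₁ * k₂) * Real.log (y / (k₁ * k₂ : ℕ))) ≤
        (cnt x y (k₁ * k₂) l : ℝ))).card : ℝ) ≤
    C * (y / k₁) ^ (1 / 2 + δ / 4 + ε)

open Classical in
/-- Package FC (120 lines, from CORE). Positions.

Proof. As FA, but simpler: trivial for bounded `H`; `z = ⌊H ^ (s / 2)⌋₊`; the `M` with `l + k₁ (X + M) ≤ z` are at most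
`z + 1 ≤ 2 H ^ (m (2 s - 1))`; for the others all terms are `> z` and CORE applies with `τ = (ε / 4) H / log H`. One may assume
`H ^ (m (2 s - 1)) ≤ W`, so `z ^ 2 ≤ W`. -/
def S_FC : Prop := ∀ (m : ℕ) (ε : ℝ), 1 ≤ m → 0 < ε → ∃ C : ℝ, 0 < C ∧
  ∀ (k₁ k₂ l X W H : ℕ) (s : ℝ), 1 ≤ k₁ → 1 ≤ k₂ → 1 ≤ W → 2 ≤ H → 1 ≤ s →
  (((range W).filter (fun M : ℕ =>
      (2 / s + ε) * (((k₁ * k₂ : ℕ) : ℝ) / Nat.totient (k₁ * k₂)) * (H / Real.log H) ≤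
        (((range H).filter (fun j : ℕ => (l + k₁ * (X + M) + k₁ * k₂ * j).Prime)).card : ℝ))).card : ℝ) ≤
    C * (W : ℝ) ^ ε * (W / (H : ℝ) ^ m + (H : ℝ) ^ (m * (2 * s - 1)))

end Pool.Agent.P8H73.RP
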